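import Pool.Agent.Q246.NR2.ValcSN
import Pool.Agent.Q246.NR2.Shift
import Pool.Agent.Q246.NR2.EllLink
import Pool.Agent.Q246.NR2.Prop2
import Pool.Agent.Y916.Sl.Lim
import Pool.Agent.Y916.Sl.Fin

/-!
# Generalised logarithms on hyperelliptic curves: the link

`F a` and `q a` are polynomials, `Φ (a, j)` primitives of `x^j / (q_a √F_a)`; the values of these functions at
`ξ + g` are, up to constants, values of G-functions at `1 / ξ`.  In contrast to `Y916.Sl.linkS'` the determinations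
of the integrals and of the logarithm are arbitrary and may depend on the point.
-/

set_option autoImplicit false

open Module PowerSeries

namespace Pool.Agent.Q189.GL

open Pool.Agent.Y113 Pool.Agent.Y916.AW Pool.Agent.Y916.Al Pool.Agent.Y916.Hy Pool.Agent.Y916.Sa Pool.Agent.Y916.Sl
  Pool.Agent.Q246.NR2 Pool.Agent.Q246.NR

variable {s : ℕ} {F q : Fin s → Polynomial ℤ}

theorem inpN_g (hG : ∀ a, GoodP (F a) (q a)) (hD : Dist F) : InpN (vS (PP F q) (mm F q)) :=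
  inpN_S (fun a => goodO (hG a)) (lisT s F q hG hD)

/-- the indices of the differentials -/
abbrev Ix {s : ℕ} (F q : Fin s → Polynomial ℤ) : Type := Σ a, Fin (mm F q a)

/-- the numbers at `x` -/
noncomputable def yG (F q : Fin s → Polynomial ℤ) (Λ : ℂ → Ix F q → ℂ) (l : ℂ → ℂ) (x : ℂ) :
    Tau (mm F q) → ℂ
  | Sum.inl p => Λ x p
  | Sum.inr _ => l x

/-- the constants -/
noncomputable def uG {ρ : ℕ} (κ : Ix F q → ℂ) (ω : Fin ρ → ℂ) (c : Ix F q → ℂ) (L : ℂ) :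
    (Ix F q ⊕ Ix F q) ⊕ (Fin ρ ⊕ Fin 2) → ℂ :=
  Sum.elim (Sum.elim κ c) (Sum.elim ω ![L, 2 * Real.pi * Complex.I])

/-- the polynomials -/
noncomputable def FG (F q : Fin s → Polynomial ℤ) {ρ : ℕ} (ε ε' : Ix F q → ℤ) (n : Ix F q → Fin ρ → ℤ) (k : ℤ) :
    Tau (mm F q) → MvPolynomial (Tau (mm F q) ⊕ ((Ix F q ⊕ Ix F q) ⊕ (Fin ρ ⊕ Fin 2))) ℤ
  | Sum.inl p =>
      MvPolynomial.C (ε p) * (MvPolynomial.X (Sum.inr (Sum.inl (Sum.inr p))) * MvPolynomial.X (Sum.inl (Sum.inl p))) +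
      MvPolynomial.C (ε' p) * MvPolynomial.X (Sum.inr (Sum.inl (Sum.inl p))) +
      ∑ j, MvPolynomial.C (n p j) * MvPolynomial.X (Sum.inr (Sum.inr (Sum.inl j)))
  | Sum.inr u => MvPolynomial.X (Sum.inl (Sum.inr u)) + MvPolynomial.X (Sum.inr (Sum.inr (Sum.inr 0))) +
      MvPolynomial.C k * MvPolynomial.X (Sum.inr (Sum.inr (Sum.inr 1)))

lemma FG_deg {ρ : ℕ} (ε ε' : Ix F q → ℤ) (n : Ix F q → Fin ρ → ℤ) (k : ℤ) (i : Tau (mm F q)) :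
    (FG F q ε ε' n k i).totalDegree ≤ 2 := by
  rcases i with p | u
  · refine deg_add2 (deg_add2 (deg_CXX _ _ _) (deg_CX _ _)) ?_
    refine MvPolynomial.totalDegree_finsetSum_le fun j _ => deg_CX _ _
  · refine deg_add2 (deg_add2 ?_ ?_) (deg_CX _ _)
    · rw [MvPolynomial.totalDegree_X]; norm_num
    · rw [MvPolynomial.totalDegree_X]; norm_num

/-- the leading coefficients -/
noncomputable def aG (ε : Ix F q → ℤ) (c : Ix F q → ℂ) : Tau (mm F q) → ℂ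
  | Sum.inl p => ε p * c p
  | Sum.inr _ => 1

/-- the constant terms -/
noncomputable def bG {ρ : ℕ} (ε' : Ix F q → ℤ) (n : Ix F q → Fin ρ → ℤ) (k : ℤ) (κ : Ix F q → ℂ) (ω : Fin ρ → ℂ)
    (L : ℂ) : Tau (mm F q) → ℂ
  | Sum.inl p => ε' p * κ p + ∑ j, n p j * ω j
  | Sum.inr _ => L + k * (2 * Real.pi * Complex.I)

lemma FG_eval {ρ : ℕ} (ε ε' : Ix F q → ℤ) (n : Ix F q → Fin ρ → ℤ) (k : ℤ) (κ : Ix F q → ℂ) (ω : Fin ρ → ℂ)
    (c : Ix F q → ℂ) (L : ℂ) (v : Tau (mm F q) → ℂ) (i : Tau (mm F q)) :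
    MvPolynomial.aeval (Sum.elim v (uG κ ω c L)) (FG F q ε ε' n k i) = aG ε c i * v i + bG ε' n k κ ω L i := by
  rcases i with p | u
  · simp only [FG, aG, bG, map_add, map_mul, map_sum, MvPolynomial.aeval_X, MvPolynomial.aeval_C, Sum.elim_inl,
      Sum.elim_inr, uG]
    simp
    ring
  · simp only [FG, aG, bG, map_add, map_mul, MvPolynomial.aeval_X, MvPolynomial.aeval_C, Sum.elim_inl,
      Sum.elim_inr, uG]
    simp
    ring

lemma FG_affine {ρ : ℕ} (ε ε' : Ix F q → ℤ) (n : Ix F q → Fin ρ → ℤ) (k : ℤ) (κ : Ix F q → ℂ) (ω : Fin ρ → ℂ)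
    (c : Ix F q → ℂ) (L : ℂ) (i : Tau (mm F q)) :
    (MvPolynomial.aeval (Sum.elim MvPolynomial.X (fun j => MvPolynomial.C (uG κ ω c L j))) (FG F q ε ε' n k i) :
      MvPolynomial (Tau (mm F q)) ℂ) =
      MvPolynomial.C (aG ε c i) * MvPolynomial.X i + MvPolynomial.C (bG ε' n k κ ω L i) := by
  rcases i with p | u
  · simp only [FG, aG, bG, map_add, map_mul, map_sum, MvPolynomial.aeval_X, MvPolynomial.aeval_C, Sum.elim_inl,
      Sum.elim_inr, uG]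
    simp
    ring
  · simp only [FG, aG, bG, map_add, map_mul, MvPolynomial.aeval_X, MvPolynomial.aeval_C, Sum.elim_inl,
      Sum.elim_inr, uG]
    simp
    ring

/-- `Λ x p` is `± Φ_p(x)` plus an integer combination of the numbers `ω`, and `l x` is a logarithm of `x` -/
def Det {ρ : ℕ} (u₀ : ℂ) (R : ℝ) (Φ : Id F q → ℂ → ℂ) (ω : Fin ρ → ℂ) (Λ : ℂ → Id F q → ℂ) : Prop :=
  ∀ x : ℂ, DmS u₀ R x → ∀ p : Id F q, ∃ ε : ℤ, (ε = 1 ∨ ε = -1) ∧ ∃ n : Fin ρ → ℤ,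
    Λ x p = ε * Φ p x + ∑ j, n j * ω j

theorem link_g (hG : ∀ a, GoodP (F a) (q a)) {u₀ : ℂ} (hu₀ : u₀ ≠ 0) {R : ℝ} {S : Fin s → ℂ → ℂ}
    {Φ : Id F q → ℂ → ℂ} (hP : IsPrim F q u₀ R S Φ) {ρ : ℕ} (ω : Fin ρ → ℂ) (Λ : ℂ → Id F q → ℂ)
    (hΛ : Det u₀ R Φ ω Λ) (l : ℂ → ℂ) (hl : ∀ z, z ≠ 0 → Complex.exp (l z) = z) (m : ℕ) :
    ∃ E, LinkR (vS (PP F q) (mm F q)) (yG F q Λ l) (DmS u₀ R) 1 ((Ix F q ⊕ Ix F q) ⊕ (Fin ρ ⊕ Fin 2)) m 2 E := by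
  classical
  have hO := fun a => (goodO (hG a)).1
  obtain ⟨R', κ, hκ⟩ := primK tP hG hu₀ hP
  choose E hE using fun a => tQ (PP F q a) (hO a)
  obtain ⟨N, hN⟩ := pow_unbounded_of_one_lt (2 * |R'| + 2) (show (1 : ℝ) < 3 by norm_num)
  refine ⟨∑ a, E a + N + 2, fun K₁ ξ hK₁f hK₁d => ?_⟩
  obtain ⟨z, hz⟩ := IsAlgClosed.exists_pow_nat_eq (1 / (ξ : ℂ)) (show 0 < 2 by norm_num)
  set lam : Fin s → ℂ := fun a => ((√((PP F q a).leadingCoeff : ℝ) : ℝ) : ℂ) with hlam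
  set e : Id F q → ℤ := fun p => 2 * ((p.2 : ℕ) : ℤ) + 2 - (PP F q p.1).natDegree with he
  set c : Id F q → ℂ := fun p => z ^ (-e p) / lam p.1 with hc
  refine ⟨uG κ ω c (Complex.log ξ), fun g hg hgξ hD => ?_⟩
  have hone : ((ξ : ℂ) + ((1 : ℤ) : ℂ) * g) = (ξ : ℂ) + g := by push_cast; ring
  rw [hone] at hD
  have hg0 : (0 : ℝ) ≤ g := Nat.cast_nonneg g
  have hg1 : (1 : ℝ) ≤ g := by exact_mod_cast hg
  have hgp : ∀ n ≤ ∑ a, E a + N + 2, ((g : ℝ) + 2) ^ n ≤ ‖(ξ : ℂ)‖ := fun n hn =>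
    (pow_le_pow_right₀ (by linarith) hn).trans hgξ
  have hg2 : ((g : ℝ) + 2) ^ 2 ≤ ‖(ξ : ℂ)‖ := hgp 2 (by omega)
  have hg3 : 2 * (g : ℝ) ≤ ‖(ξ : ℂ)‖ := by nlinarith
  have hξn : 0 < ‖(ξ : ℂ)‖ := by linarith
  have hξ0 : (ξ : ℂ) ≠ 0 := norm_pos_iff.1 hξn
  have hz0 : z ≠ 0 := by
    rintro rfl
    rw [zero_pow two_ne_zero] at hz
    exact one_div_ne_zero hξ0 hz.symm
  have hbig : R' < ‖(ξ : ℂ) + g‖ := by
    have h1 : ‖(ξ : ℂ)‖ - g ≤ ‖(ξ : ℂ) + g‖ := by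
      have := norm_sub_norm_le (ξ : ℂ) (-(g : ℂ))
      rw [norm_neg, Complex.norm_natCast, sub_neg_eq_add] at this
      exact this
    have h2 : (3 : ℝ) ^ N ≤ ‖(ξ : ℂ)‖ :=
      (pow_le_pow_left₀ (by norm_num) (by linarith) N).trans (hgp N (by omega))
    have h3 := le_abs_self R'
    linarith
  have hgz : ‖(g : ℂ) * (1 / (ξ : ℂ))‖ < 1 := by
    rw [norm_mul, norm_div, norm_one, Complex.norm_natCast, mul_one_div, div_lt_one hξn]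
    linarith
  have hgz0 : (1 + (g : ℂ) * (1 / (ξ : ℂ))) ≠ 0 := by
    intro h
    have h5 : (g : ℂ) * (1 / (ξ : ℂ)) = -1 := by linear_combination h
    rw [h5] at hgz
    simp at hgz
  have hx : (ξ : ℂ) + g = ξ * (1 + (g : ℂ) * (1 / (ξ : ℂ))) := by field_simp
  have hx0 : (ξ : ℂ) + g ≠ 0 := by
    rw [hx]
    exact mul_ne_zero hξ0 hgz0
  obtain ⟨k, hk⟩ := log_mul_mem hξ0 hgz0 (l := l ((ξ : ℂ) + g)) (by
    rw [hl _ hx0]
    exact hx)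
  have hlp : ∀ a, (0 : ℝ) < (PP F q a).leadingCoeff := fun a => by exact_mod_cast (hO a).pos
  have hlam0 : ∀ a, lam a ≠ 0 := by
    intro a
    rw [hlam]
    simp only [ne_eq, Complex.ofReal_eq_zero]
    exact (Real.sqrt_pos.2 (hlp a)).ne'
  have hlam2 : ∀ a, lam a ^ 2 = ((PP F q a).leadingCoeff : ℂ) := by
    intro a
    rw [hlam]
    simp only
    rw [← Complex.ofReal_pow, Real.sq_sqrt (hlp a).le]
    push_cast
    rfl
  have hc0 : ∀ p, c p ≠ 0 := fun p => div_ne_zero (zpow_ne_zero _ hz0) (hlam0 _)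
  -- the values of the primitives
  have hval : ∀ p : Id F q, ∃ ε : ℤ, (ε = 1 ∨ ε = -1) ∧ Φ p ((ξ : ℂ) + g) =
      ε * (c p * vS (PP F q) (mm F q) (ξ : ℂ) g (Sum.inl p)) + κ p := by
    rintro ⟨a, j⟩
    have h1 := hκ _ hbig hD.2 ⟨a, j⟩
    have hEa : ‖(1 / (ξ : ℂ))‖ * ((g : ℝ) + 2) ^ E a ≤ 1 := by
      rw [norm_div, norm_one, div_mul_eq_mul_div, one_mul, div_le_one hξn]
      refine hgp _ ?_
      have := Finset.single_le_sum (f := E) (fun _ _ => Nat.zero_le _) (Finset.mem_univ a)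
      omega
    have hj : (j : ℕ) < (PP F q a).natDegree - 1 := by
      have h2 := natDeg_PP hG a
      have h3 := (hG a).deg
      have h4 : (j : ℕ) < (F a).natDegree - 1 + (q a).natDegree := j.2
      have h5 := (hG a).odd.pos
      omega
    have h2 := hE a g (1 / (ξ : ℂ)) hEa j hj
    have h3 : 1 / (ξ : ℂ) / (1 + (g : ℂ) * (1 / (ξ : ℂ))) = 1 / ((ξ : ℂ) + g) := by
      rw [hx, div_div]
    rw [h3] at h2
    have h4 : (lam a * (Φ ⟨a, j⟩ ((ξ : ℂ) + g) - κ ⟨a, j⟩)) ^ 2 =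
        (z ^ (-e ⟨a, j⟩) * evc (1 / (ξ : ℂ)) (US (PP F q a) g j)) ^ 2 := by
      have h5 : (z ^ (-e ⟨a, j⟩)) ^ 2 = (ξ : ℂ) ^ e ⟨a, j⟩ := by
        rw [← zpow_natCast (z ^ (-e ⟨a, j⟩)) 2, ← zpow_mul, mul_comm, zpow_mul, zpow_natCast, hz, one_div, inv_zpow,
          zpow_neg, inv_inv]
      rw [mul_pow, mul_pow, hlam2, h5, h2, ← mul_assoc]
      have h6 : (ξ : ℂ) ^ e ⟨a, j⟩ * (1 + (g : ℂ) * (1 / (ξ : ℂ))) ^ (2 * ((j : ℕ) : ℤ) + 2 - (PP F q a).natDegree) =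
          ((ξ : ℂ) + g) ^ (2 * ((j : ℕ) : ℤ) + 2 - (PP F q a).natDegree) := by
        rw [hx, mul_zpow]
      rw [h6]
      exact h1
    have hl0 := hlam0 a
    change ∃ ε : ℤ, (ε = 1 ∨ ε = -1) ∧ Φ ⟨a, j⟩ ((ξ : ℂ) + g) =
      ε * (z ^ (-e ⟨a, j⟩) / lam a * evc (1 / (ξ : ℂ)) (US (PP F q a) g j)) + κ ⟨a, j⟩
    rcases sq_eq_sq_iff_eq_or_eq_neg.1 h4 with h5 | h5
    · refine ⟨1, Or.inl rfl, ?_⟩
      push_cast
      field_simp
      linear_combination h5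
    · refine ⟨-1, Or.inr rfl, ?_⟩
      push_cast
      field_simp
      linear_combination h5
  choose ε₁ hε₁ hv using hval
  choose ε₂ hε₂ n hn using hΛ _ hD
  have hε10 : ∀ p, (ε₁ p : ℂ) ≠ 0 := fun p => by
    rcases hε₁ p with h | h <;> rw [h] <;> norm_num
  have hε20 : ∀ p, (ε₂ p : ℂ) ≠ 0 := fun p => by
    rcases hε₂ p with h | h <;> rw [h] <;> norm_num
  refine ⟨FG F q (fun p => ε₂ p * ε₁ p) ε₂ n k, FG_deg _ _ _ _, ?_, fun i => ?_⟩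
  · refine retr_affine (aG (fun p => ε₂ p * ε₁ p) c) (bG ε₂ n k κ ω (Complex.log ξ)) (fun i => ?_)
      (FG_affine _ _ _ _ _ _ _ _)
    rcases i with p | u
    · simp only [aG]
      push_cast
      exact mul_ne_zero (mul_ne_zero (hε20 p) (hε10 p)) (hc0 p)
    · exact one_ne_zero
  · refine Eq.trans ?_ (FG_eval (F := F) (q := q) (fun p => ε₂ p * ε₁ p) ε₂ n k κ ω c (Complex.log ξ)
      (vS (PP F q) (mm F q) (ξ : ℂ) g) i).symm
    rw [hone]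
    rcases i with p | u
    · have e1 : yG F q Λ l ((ξ : ℂ) + g) (Sum.inl p) = Λ ((ξ : ℂ) + g) p := rfl
      have e3 : Λ ((ξ : ℂ) + g) p = (ε₂ p : ℂ) * ((ε₁ p : ℂ) * (c p * vS (PP F q) (mm F q) (ξ : ℂ) g (Sum.inl p)) +
          κ p) + ∑ j, (n p j : ℂ) * ω j :=
        (hn p).trans (congrArg (fun w => (ε₂ p : ℂ) * w + ∑ j, (n p j : ℂ) * ω j) (hv p))
      rw [e1]
      refine e3.trans ?_
      simp only [aG, bG]
      push_cast
      ring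
    · have e1 : yG F q Λ l ((ξ : ℂ) + g) (Sum.inr u) = l ((ξ : ℂ) + g) := rfl
      have e2 : vS (PP F q) (mm F q) (ξ : ℂ) g (Sum.inr u) = Complex.log (1 + (g : ℂ) * (1 / (ξ : ℂ))) := evc_log hgz
      rw [e1, e2]
      simp only [aG, bG]
      rw [← hk]
      ring

/-- few near relations between generalised logarithms of several shifts -/
theorem win_g (hG : ∀ a, GoodP (F a) (q a)) (hD : Dist F) {u₀ : ℂ} (hu₀ : u₀ ≠ 0) {R : ℝ} {S : Fin s → ℂ → ℂ}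
    {Φ : Id F q → ℂ → ℂ} (hP : IsPrim F q u₀ R S Φ) {ρ : ℕ} (ω : Fin ρ → ℂ) (Λ : ℂ → Id F q → ℂ)
    (hΛ : Det u₀ R Φ ω Λ) (l : ℂ → ℂ) (hl : ∀ z, z ≠ 0 → Complex.exp (l z) = z) (m : ℕ) {r : ℕ} (θ : Fin r → ℕ)
    (hθ : Function.Injective θ) : ∃ G : ℕ, 1 ≤ G ∧
    WinN (fun ξ (p : Fin r × Tau (mm F q)) => yG F q Λ l (ξ + θ p.1) p.2) (fun ξ => ∀ j, DmS u₀ R (ξ + θ j)) G m := by
  classical
  obtain ⟨E, hE⟩ := link_g hG hu₀ hP ω Λ hΛ l hl m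
  set G : ℕ := 1 + ∑ j, θ j with hGd
  have hθG : ∀ j, θ j < G := by
    intro j
    have := Finset.single_le_sum (f := θ) (fun _ _ => Nat.zero_le _) (Finset.mem_univ j)
    omega
  refine ⟨G, by omega, ?_⟩
  exact win (inp_shift (inpN_g hG hD) θ hθ G hθG (by omega)) (link_shift hE θ G hθG (by omega)).toN

end Pool.Agent.Q189.GL
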